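import Mathlib
import Pool.Agent.H81.ES.Seq

/-!
# The units `φ^(50 n + 25) = a θ + b`, `θ² + 125 θ + 3125 = 0`
-/

namespace H81ET

open H81ES (th th_sq th_pos al al_big)

/-- `(a, b)` stands for `a θ + b`, of norm `b² - 125 a b + 3125 a²` -/
def pl : ℕ → ℤ × ℤ
  | 0 => (3001, 271443)
  | n + 1 => (503450761 * (pl n).2 - 17393796001 * (pl n).1,
      45537549124 * (pl n).2 - 1573283628125 * (pl n).1)

theorem pl_succ (n : ℕ) : pl (n + 1) = (503450761 * (pl n).2 - 17393796001 * (pl n).1,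
      45537549124 * (pl n).2 - 1573283628125 * (pl n).1) := rfl

theorem pl_norm (n : ℕ) :
    (pl n).2 ^ 2 - 125 * (pl n).1 * (pl n).2 + 3125 * (pl n).1 ^ 2 = -1 := by
  induction n with
  | zero => simp [pl]
  | succ n ih =>
    rw [pl_succ]
    dsimp only
    linear_combination ih

/-- the trace -/
def tl (n : ℕ) : ℤ := 2 * (pl n).2 - 125 * (pl n).1

theorem pl_pos (n : ℕ) : 1 ≤ (pl n).1 ∧ 1 ≤ tl n := by
  induction n with
  | zero => simp [pl, tl]
  | succ n ih =>
    rw [tl] at ih ⊢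
    rw [pl_succ]
    dsimp only
    constructor <;> linarith [ih.1, ih.2]

theorem tl_norm (n : ℕ) : tl n ^ 2 - 3125 * (pl n).1 ^ 2 = -4 := by
  rw [tl]
  linear_combination 4 * pl_norm n

/-- the sequence modulo 28 -/
def plz : ℕ → ZMod 28 × ZMod 28
  | 0 => (5, 11)
  | n + 1 => (9 * (plz n).2 - 1 * (plz n).1, 4 * (plz n).2 - 13 * (plz n).1)

theorem plz_succ (n : ℕ) : plz (n + 1) =
    (9 * (plz n).2 - 1 * (plz n).1, 4 * (plz n).2 - 13 * (plz n).1) := rfl

theorem pl_cast (n : ℕ) : (((pl n).1 : ZMod 28), ((pl n).2 : ZMod 28)) = plz n := by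
  induction n with
  | zero =>
    rw [pl, plz]
    push_cast
    have h1 : (3001 : ZMod 28) = 5 := by decide
    have h2 : (271443 : ZMod 28) = 11 := by decide
    rw [h1, h2]
  | succ n ih =>
    rw [plz_succ, ← ih, pl_succ]
    dsimp only
    push_cast
    have h1 : (503450761 : ZMod 28) = 9 := by decide
    have h2 : (17393796001 : ZMod 28) = 1 := by decide
    have h3 : (45537549124 : ZMod 28) = 4 := by decide
    have h4 : (1573283628125 : ZMod 28) = 13 := by decide
    rw [h1, h2, h3, h4]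

theorem plz_add (n : ℕ) : plz (n + 24) = plz n := by
  induction n with
  | zero => decide
  | succ n ih =>
    have : n + 1 + 24 = (n + 24) + 1 := by ring
    rw [this, plz_succ, ih, ← plz_succ]

theorem plz_one (i : ℕ) : plz (23 + 24 * i) = (5, 26) := by
  induction i with
  | zero => decide
  | succ n ih =>
    have : 23 + 24 * (n + 1) = (23 + 24 * n) + 24 := by ring
    rw [this, plz_add, ih]

theorem pl_mod (i : ℕ) : (∃ x, (pl (23 + 24 * i)).1 = 5 + 28 * x) ∧
    ∃ y, (pl (23 + 24 * i)).2 = 26 + 28 * y := by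
  have h := (pl_cast (23 + 24 * i)).trans (plz_one i)
  obtain ⟨h1, h2⟩ := Prod.ext_iff.1 h
  dsimp only at h1 h2
  constructor
  · have h3 : (((pl (23 + 24 * i)).1 - 5 : ℤ) : ZMod 28) = 0 := by
      push_cast
      rw [h1]
      decide
    obtain ⟨x, hx⟩ := (ZMod.intCast_zmod_eq_zero_iff_dvd _ 28).1 h3
    exact ⟨x, by push_cast at hx; linarith⟩
  · have h3 : (((pl (23 + 24 * i)).2 - 26 : ℤ) : ZMod 28) = 0 := by
      push_cast
      rw [h2]
      decide
    obtain ⟨x, hx⟩ := (ZMod.intCast_zmod_eq_zero_iff_dvd _ 28).1 h3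
    exact ⟨x, by push_cast at hx; linarith⟩

/-- `φ^25` -/
noncomputable def be : ℝ := (167761 + 3001 * th) / 2

theorem be_pos : 0 < be := by
  rw [be]
  have := th_pos
  linarith

theorem be_big : 1 ≤ be := by
  rw [be]
  have := th_pos
  linarith

theorem pl_real (n : ℕ) : ((tl n : ℤ) : ℝ) + (pl n).1 * th = 2 * (be * al ^ n) := by
  induction n with
  | zero =>
    rw [tl, pl, be]
    push_cast
    ring
  | succ n ih =>
    have e : (2 : ℝ) * (be * al ^ (n + 1)) = al * (2 * (be * al ^ n)) := by ring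
    rw [e, ← ih, tl, tl, pl_succ, al]
    push_cast
    linear_combination (-(503450761 : ℝ) * (pl n).1 / 2) * th_sq

theorem pl_real' (n : ℕ) : (((tl n : ℤ) : ℝ) - (pl n).1 * th) * (be * al ^ n) = -2 := by
  have h1 : (((tl n : ℤ) : ℝ) - (pl n).1 * th) * (2 * (be * al ^ n)) = -4 := by
    rw [← pl_real n]
    have h := tl_norm n
    have h' : ((tl n : ℤ) : ℝ) ^ 2 - 3125 * ((pl n).1 : ℝ) ^ 2 = -4 := by exact_mod_cast h
    linear_combination h' - ((pl n).1 : ℝ) ^ 2 * th_sq
  linarith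

theorem pl_two (n : ℕ) : ((tl n : ℤ) : ℝ) = be * al ^ n - (be * al ^ n)⁻¹ := by
  have h0 : be * al ^ n ≠ 0 := mul_ne_zero be_pos.ne' (pow_ne_zero _ (by have := al_big; linarith))
  have h1 : -((((tl n : ℤ) : ℝ) - (pl n).1 * th) / 2) = (be * al ^ n)⁻¹ := by
    rw [eq_comm]
    apply inv_eq_of_mul_eq_one_left
    have := pl_real' n
    linarith
  have h2 := pl_real n
  rw [← h1]
  linarith

end H81ET
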