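import Mathlib
import Pool.Agent.H76.EN.Consts
import Pool.Agent.H81.ET.Seq

/-!
# The two quadratic polynomials and the polynomials `G₁ G₂^l + 28 · 1728^l Δ E`
-/

namespace H81ET

open Polynomial
open H76EN (G G_monic G_natDegree G_eval G_aeval)

/-- coefficients of the first unit -/
def a1 : ℤ := (pl 47).1
/-- coefficients of the first unit -/
def b1 : ℤ := (pl 47).2
/-- coefficients of the second unit -/
def a2 : ℤ := (pl 89).1
/-- coefficients of the second unit -/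
def b2 : ℤ := (pl 89).2
/-- linear coefficient -/
def s1 : ℤ := 432 * a1 - 125
/-- constant coefficient -/
def m1 : ℤ := 3125 - 432 * b1
/-- linear coefficient -/
def s2 : ℤ := 432 * a2 - 125
/-- constant coefficient -/
def m2 : ℤ := 3125 - 432 * b2

theorem n1 : b1 ^ 2 - 125 * a1 * b1 + 3125 * a1 ^ 2 = -1 := pl_norm 47

theorem n2 : b2 ^ 2 - 125 * a2 * b2 + 3125 * a2 ^ 2 = -1 := pl_norm 89

theorem a1_four : a1 % 4 = 1 := by decide +kernel
theorem b1_four : b1 % 4 = 2 := by decide +kernel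
theorem a2_four : a2 % 4 = 1 := by decide +kernel
theorem b2_four : b2 % 4 = 2 := by decide +kernel

theorem s1_sev : (s1 : ZMod 7) = 5 := by decide +kernel
theorem m1_sev : (m1 : ZMod 7) = 6 := by decide +kernel
theorem s2_sev : (s2 : ZMod 7) = 2 := by decide +kernel
theorem m2_sev : (m2 : ZMod 7) = 3 := by decide +kernel

theorem s1_l : (s1 : ZMod 37) = ((13 : ℤ) : ZMod 37) + ((10 : ℤ) : ZMod 37) := by
  decide +kernel
theorem m1_l : (m1 : ZMod 37) = ((13 : ℤ) : ZMod 37) * ((10 : ℤ) : ZMod 37) := by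
  decide +kernel
theorem s2_l : (s2 : ZMod 37) = ((10 : ℤ) : ZMod 37) + ((10 : ℤ) : ZMod 37) := by
  decide +kernel
theorem m2_l : (m2 : ZMod 37) = ((10 : ℤ) : ZMod 37) * ((10 : ℤ) : ZMod 37) := by
  decide +kernel

/-- `X² + 125 X + 3125` -/
noncomputable def D : ℤ[X] := X ^ 2 + C 125 * X + C 3125

theorem D_eval (b : ℤ) : D.eval b = b ^ 2 + 125 * b + 3125 := by
  simp [D]

theorem D_aeval {R : Type} [CommRing R] (b : R) : aeval b D = b ^ 2 + 125 * b + 3125 := by
  simp [D, map_ofNat]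

/-- the polynomials `G₁ G₂^l + 28 · 1728^l (X² + 125 X + 3125) E` -/
noncomputable def fp (l : ℕ) (E : ℤ[X]) : ℤ[X] :=
  G s1 m1 * G s2 m2 ^ l + C (4 * 1728 ^ l * 7) * D * E

theorem fp_eval (l : ℕ) (E : ℤ[X]) (b : ℤ) : (fp l E).eval b =
    (b ^ 2 - s1 * b + m1) * (b ^ 2 - s2 * b + m2) ^ l
      + 4 * 1728 ^ l * 7 * (b ^ 2 + 125 * b + 3125) * E.eval b := by
  rw [fp, eval_add, eval_mul, eval_mul, eval_mul, eval_pow, G_eval, G_eval, D_eval, eval_C]

theorem fp_aeval {R : Type} [CommRing R] (l : ℕ) (E : ℤ[X]) (b : R) : aeval b (fp l E) =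
    (b ^ 2 - (s1 : R) * b + m1) * (b ^ 2 - (s2 : R) * b + m2) ^ l
      + 4 * 1728 ^ l * 7 * (b ^ 2 + 125 * b + 3125) * aeval b E := by
  rw [fp, map_add, map_mul, map_mul, map_mul, map_pow, G_aeval, G_aeval, D_aeval]
  rw [aeval_C, eq_intCast]
  push_cast
  rfl

theorem base_monic (l : ℕ) : (G s1 m1 * G s2 m2 ^ l).Monic :=
  (G_monic _ _).mul ((G_monic _ _).pow l)

theorem base_natDegree (l : ℕ) : (G s1 m1 * G s2 m2 ^ l).natDegree = 2 * l + 2 := by
  rw [(G_monic _ _).natDegree_mul ((G_monic _ _).pow l), (G_monic _ _).natDegree_pow,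
    G_natDegree, G_natDegree]
  ring

theorem D_natDegree : D.natDegree ≤ 2 := by
  rw [D]
  compute_degree

theorem pert_degree (l : ℕ) (hl : 1 ≤ l) (E : ℤ[X]) (hE : E.natDegree ≤ 2 * l - 1) :
    (C (4 * 1728 ^ l * 7) * D * E : ℤ[X]).degree < ((2 * l + 2 : ℕ) : WithBot ℕ) := by
  have h1 : (C (4 * 1728 ^ l * 7) * D * E : ℤ[X]).natDegree ≤ 2 * l + 1 := by
    calc (C (4 * 1728 ^ l * 7) * D * E : ℤ[X]).natDegree
        ≤ (C (4 * 1728 ^ l * 7) * D : ℤ[X]).natDegree + E.natDegree :=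
          natDegree_mul_le
      _ ≤ 2 + (2 * l - 1) := by
          apply Nat.add_le_add _ hE
          calc (C (4 * 1728 ^ l * 7) * D : ℤ[X]).natDegree
              ≤ D.natDegree := natDegree_C_mul_le _ _
            _ ≤ 2 := D_natDegree
      _ = 2 * l + 1 := by omega
  calc (C (4 * 1728 ^ l * 7) * D * E : ℤ[X]).degree
      ≤ ((2 * l + 1 : ℕ) : WithBot ℕ) := degree_le_of_natDegree_le h1
    _ < ((2 * l + 2 : ℕ) : WithBot ℕ) := by exact_mod_cast Nat.lt_succ_self _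

theorem fp_monic (l : ℕ) (hl : 1 ≤ l) (E : ℤ[X]) (hE : E.natDegree ≤ 2 * l - 1) :
    (fp l E).Monic := by
  rw [fp]
  apply (base_monic l).add_of_left
  rw [degree_eq_natDegree (base_monic l).ne_zero, base_natDegree]
  exact pert_degree l hl E hE

theorem fp_natDegree (l : ℕ) (hl : 1 ≤ l) (E : ℤ[X]) (hE : E.natDegree ≤ 2 * l - 1) :
    (fp l E).natDegree = 2 * l + 2 := by
  rw [fp, natDegree_add_eq_left_of_degree_lt, base_natDegree]
  rw [degree_eq_natDegree (base_monic l).ne_zero, base_natDegree]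
  exact pert_degree l hl E hE

end H81ET
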