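import Mathlib
import Pool.Agent.H81.ES.Curve

/-!
# Genus 2 curves of discriminant `e¹⁸`, where `u² + 125 u + 3125 = 432 e`

With `e = u + 2 + 4 t` the curve is `y² + (u + 1) e y = f(x)`, and `4 f + (u + 1)² e² = - e Y(x)` with a
sextic `Y` of discriminant `2¹² e⁸`; an explicit combination of `Y` and `Y'` equals `e³`.
-/

namespace H81ET

open Polynomial H81ES

section
variable {R : Type} [CommRing R]

/-- `e = u + 2 + 4 t` -/
def ee (u t : R) : R := u + 2 + 4 * t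

/-- constant coefficient -/
def gg (u t : R) : R :=
  3125 + 625 * u + 11121 * ee u t + 5352 * u * ee u t + 581 * u ^ 2 * ee u t
    + 216 * ee u t ^ 2 + 648 * ee u t ^ 3 + 108 * u * ee u t ^ 3
    + (12707 + 2326 * u) * t * ee u t

/-- `f / e` -/
def fe (u t x : R) : R :=
  4 * u * x ^ 6 - (6125 + 123 * u - 864 * ee u t) * x ^ 5
    + (625 + 325 * u + 360 * ee u t + 180 * u * ee u t) * x ^ 4
    - (106250 + 2150 * u + 43199 * ee u t + 1190 * u * ee u t - 8640 * ee u t ^ 2) * x ^ 3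
    + (6250 + 1750 * u + 7347 * ee u t + 1944 * u * ee u t + 2160 * ee u t ^ 2
      + 540 * u * ee u t ^ 2) * x ^ 2
    - (165625 + 3375 * u + 158097 * ee u t + 3738 * u * ee u t + 22716 * ee u t ^ 2
      + 1035 * u * ee u t ^ 2 - 7776 * ee u t ^ 3) * x + gg u t

/-- derivative of `f / e` -/
def fe' (u t x : R) : R :=
  24 * u * x ^ 5 - 5 * (6125 + 123 * u - 864 * ee u t) * x ^ 4
    + 4 * (625 + 325 * u + 360 * ee u t + 180 * u * ee u t) * x ^ 3
    - 3 * (106250 + 2150 * u + 43199 * ee u t + 1190 * u * ee u t - 8640 * ee u t ^ 2) * x ^ 2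
    + 2 * (6250 + 1750 * u + 7347 * ee u t + 1944 * u * ee u t + 2160 * ee u t ^ 2
      + 540 * u * ee u t ^ 2) * x
    - (165625 + 3375 * u + 158097 * ee u t + 3738 * u * ee u t + 22716 * ee u t ^ 2
      + 1035 * u * ee u t ^ 2 - 7776 * ee u t ^ 3)

/-- the sextic `Y` -/
def yy (u e x : R) : R :=
  - 12500 - 2500 * u - 22196 * e - 4176 * u * e - 13139 * e ^ 2 - 2326 * u * e ^ 2
    - 2592 * e ^ 3 - 432 * u * e ^ 3
    + (662500 + 13500 * u + 632388 * e + 14952 * u * e + 90864 * e ^ 2 + 4140 * u * e ^ 2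
      - 31104 * e ^ 3) * x
    - (25000 + 7000 * u + 29388 * e + 7776 * u * e + 8640 * e ^ 2 + 2160 * u * e ^ 2) * x ^ 2
    + (425000 + 8600 * u + 172796 * e + 4760 * u * e - 34560 * e ^ 2) * x ^ 3
    - (2500 + 1300 * u + 1440 * e + 720 * u * e) * x ^ 4
    + (24500 + 492 * u - 3456 * e) * x ^ 5 - 16 * u * x ^ 6

/-- derivative of `Y` -/
def yy' (u e x : R) : R :=
  (662500 + 13500 * u + 632388 * e + 14952 * u * e + 90864 * e ^ 2 + 4140 * u * e ^ 2
      - 31104 * e ^ 3)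
    - 2 * (25000 + 7000 * u + 29388 * e + 7776 * u * e + 8640 * e ^ 2 + 2160 * u * e ^ 2) * x
    + 3 * (425000 + 8600 * u + 172796 * e + 4760 * u * e - 34560 * e ^ 2) * x ^ 2
    - 4 * (2500 + 1300 * u + 1440 * e + 720 * u * e) * x ^ 3
    + 5 * (24500 + 492 * u - 3456 * e) * x ^ 4 - 96 * u * x ^ 5

theorem bezout (u e x : R) (hrel : u ^ 2 + 125 * u + 3125 = 432 * e) (h1 : yy u e x = 0)
    (h2 : yy' u e x = 0) : e ^ 3 = 0 := by
  simp only [yy, yy'] at h1 h2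
  linear_combination (- 6484375000 - 190000000 * u + 761840625 * e - 60131050 * u * e + 5695310448 * e ^ 2
      + 107185248 * u * e ^ 2 + 1237130496 * e ^ 3 + 45536256 * u * e ^ 3 - 322486272 * e ^ 4
      + 11671875000 * x + 333750000 * u * x + 3074580000 * e * x + 94194000 * u * e * x
      - 1892180736 * e ^ 2 * x - 114877440 * u * e ^ 2 * x - 8957952 * e ^ 3 * x
      - 35831808 * u * e ^ 3 * x - 7265625000 * x ^ 2 - 213000000 * u * x ^ 2
      + 5111550000 * e * x ^ 2 + 54738720 * u * e * x ^ 2 + 3843894528 * e ^ 2 * x ^ 2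
      + 94804992 * u * e ^ 2 * x ^ 2 - 644972544 * e ^ 3 * x ^ 2 + 2178125000 * x ^ 3
      + 62250000 * u * x ^ 3 - 614304000 * e * x ^ 3 - 17141760 * u * e * x ^ 3
      + 26873856 * e ^ 2 * x ^ 3 - 11943936 * u * e ^ 2 * x ^ 3 - 225000000 * x ^ 4
      - 6600000 * u * x ^ 4 + 290304000 * e * x ^ 4 + 5474304 * u * e * x ^ 4
      - 35831808 * e ^ 2 * x ^ 4) * h1
    + (- 2578125000 - 73750000 * u - 2092490625 * e - 61877600 * u * e + 91134768 * e ^ 2
      + 13923540 * u * e ^ 2 + 274549824 * e ^ 3 + 22249728 * u * e ^ 3 + 11197440 * e ^ 4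
      + 4478976 * u * e ^ 4 + 5375000000 * x + 157500000 * u * x - 668693125 * e * x
      + 49069850 * u * e * x - 4767403824 * e ^ 2 * x - 89866944 * u * e ^ 2 * x
      - 1037193984 * e ^ 3 * x - 38071296 * u * e ^ 3 * x + 268738560 * e ^ 4 * x
      - 4843750000 * x ^ 2 - 138500000 * u * x ^ 2 - 1274037500 * e * x ^ 2
      - 38834060 * u * e * x ^ 2 + 782080704 * e ^ 2 * x ^ 2 + 47919168 * u * e ^ 2 * x ^ 2
      + 1492992 * e ^ 3 * x ^ 2 + 14929920 * u * e ^ 3 * x ^ 2 + 2012500000 * x ^ 3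
      + 59000000 * u * x ^ 3 - 1422918000 * e * x ^ 3 - 15305760 * u * e * x ^ 3
      - 1069998336 * e ^ 2 * x ^ 3 - 26376192 * u * e ^ 2 * x ^ 3 + 179159040 * e ^ 3 * x ^ 3
      - 453125000 * x ^ 4 - 12950000 * u * x ^ 4 + 127800000 * e * x ^ 4
      + 3572928 * u * e * x ^ 4 - 5723136 * e ^ 2 * x ^ 4 + 2488320 * u * e ^ 2 * x ^ 4
      + 37500000 * x ^ 5 + 1100000 * u * x ^ 5 - 48384000 * e * x ^ 5 - 912384 * u * e * x ^ 5
      + 5971968 * e ^ 2 * x ^ 5) * h2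
    - (- 520625000000 - 994289975000 * e - 617466940400 * e ^ 2 - 87118579268 * e ^ 3
      + 37291886352 * e ^ 4 + 6862164480 * e ^ 5 - 1128701952 * e ^ 6 - 240625000000 * x
      - 251244800000 * e * x + 137387872800 * e ^ 2 * x + 259235484768 * e ^ 3 * x
      + 90577481472 * e ^ 4 * x - 1899085824 * e ^ 5 * x - 3869835264 * e ^ 6 * x
      + 390625000000 * x ^ 2 + 531725760000 * e * x ^ 2 + 179877197760 * e ^ 2 * x ^ 2
      - 16202302416 * e ^ 3 * x ^ 2 - 5912186112 * e ^ 4 * x ^ 2 + 2579890176 * e ^ 5 * x ^ 2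
      + 181125000000 * x ^ 3 + 83404820000 * e * x ^ 3 - 161806049600 * e ^ 2 * x ^ 3
      - 116110765440 * e ^ 3 * x ^ 3 - 8230864896 * e ^ 4 * x ^ 3 + 5159780352 * e ^ 5 * x ^ 3
      - 109425000000 * x ^ 4 - 89332291000 * e * x ^ 4 - 4346452368 * e ^ 2 * x ^ 4
      + 3105651456 * e ^ 3 * x ^ 4 - 1827422208 * e ^ 4 * x ^ 4 - 50925000000 * x ^ 5
      + 6300548000 * e * x ^ 5 + 44739492480 * e ^ 2 * x ^ 5 + 9537730560 * e ^ 3 * x ^ 5
      - 2579890176 * e ^ 4 * x ^ 5 + 13555000000 * x ^ 6 + 3746722000 * e * x ^ 6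
      - 1115216640 * e ^ 2 * x ^ 6 + 525533184 * e ^ 3 * x ^ 6 + 6335000000 * x ^ 7
      - 4487184000 * e * x ^ 7 - 3334846464 * e ^ 2 * x ^ 7 + 573308928 * e ^ 3 * x ^ 7
      - 626000000 * x ^ 8 + 160992000 * e * x ^ 8 - 53747712 * e ^ 2 * x ^ 8
      - 294000000 * x ^ 9 + 380160000 * e * x ^ 9 - 47775744 * e ^ 2 * x ^ 9) * hrel

theorem rel4 (u t : R) (hrel : u ^ 2 + 125 * u + 3125 = 432 * ee u t) (x : R) :
    4 * (ee u t * fe u t x) + ((u + 1) * ee u t) ^ 2 = - (ee u t * yy u (ee u t) x) := by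
  simp only [fe, yy, gg]
  simp only [ee] at hrel ⊢
  linear_combination (-(u + 2 + 4 * t) ^ 2) * hrel

theorem rel4' (u t x : R) : 4 * fe' u t x = - yy' u (ee u t) x := by
  simp only [fe', yy']
  ring

end

end H81ET
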