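import Mathlib
import Pool.Agent.H76.EN.Arith
import Pool.Agent.H81.ET.Consts
import Pool.Agent.H81.ET.Curve

/-!
# Arithmetic of the polynomials `fp`
-/

namespace H81ET

open Polynomial
open H76EN (G G_eval G_aeval map_G dvd_of_cast cast_of_dvd)

theorem coprime_L {R : Type} [CommRing R] (a b : ℤ)
    (hN : b ^ 2 - 125 * a * b + 3125 * a ^ 2 = -1) (β e : R)
    (he : β ^ 2 + 125 * β + 3125 = 432 * e) :
    IsCoprime (e - ((a : R) * β + b)) e := by
  have hN' : (b : R) ^ 2 - 125 * a * b + 3125 * (a : R) ^ 2 = -1 := by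
    exact_mod_cast congrArg (Int.cast : ℤ → R) hN
  refine ⟨(b : R) - 125 * a - a * β, -((b : R) - 125 * a - a * β) - 432 * (a : R) ^ 2, ?_⟩
  linear_combination (-1 : R) * hN' + (a : R) ^ 2 * he

/-- the relation of `e` implies that `e` is a unit -/
theorem e_unit {R : Type} [CommRing R] (l : ℕ) (E β e : R)
    (he : β ^ 2 + 125 * β + 3125 = 432 * e)
    (h : (e - ((a1 : R) * β + b1)) * (e - ((a2 : R) * β + b2)) ^ l
      + 4 ^ (l + 1) * 7 * E * e = 0) : IsUnit e := by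
  have h1 : IsCoprime ((e - ((a1 : R) * β + b1)) * (e - ((a2 : R) * β + b2)) ^ l) e :=
    (coprime_L a1 b1 n1 β e he).mul_left ((coprime_L a2 b2 n2 β e he).pow_left)
  apply h1.isUnit_of_dvd' _ (dvd_refl _)
  refine ⟨- (4 ^ (l + 1) * 7 * E), ?_⟩
  linear_combination h

/-- the relation of `e` over the field of fractions -/
theorem e_rel {K : Type} [Field K] [CharZero K] (l : ℕ) (E : ℤ[X]) (b : K)
    (hb : aeval b (fp l E) = 0) (e : K) (he : 432 * e = b ^ 2 + 125 * b + 3125) :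
    (e - ((a1 : K) * b + b1)) * (e - ((a2 : K) * b + b2)) ^ l
      + 4 ^ (l + 1) * 7 * aeval b E * e = 0 := by
  have h1 : b ^ 2 - (s1 : K) * b + m1 = 432 * (e - ((a1 : K) * b + b1)) := by
    rw [s1, m1]; push_cast; linear_combination -he
  have h2 : b ^ 2 - (s2 : K) * b + m2 = 432 * (e - ((a2 : K) * b + b2)) := by
    rw [s2, m2]; push_cast; linear_combination -he
  rw [fp_aeval, h1, h2, ← he] at hb
  have h40 : (432 : K) ^ (l + 1) ≠ 0 := pow_ne_zero _ (by norm_num)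
  apply mul_left_cancel₀ h40
  have h5 : (1728 : K) ^ l = 432 ^ l * 4 ^ l := by
    rw [← mul_pow]; norm_num
  rw [h5] at hb
  rw [mul_zero, ← hb, mul_pow]
  ring

theorem monic_pert {R : Type} [CommRing R] (l : ℕ) (hl : 1 ≤ l) (p1 p2 c d : R) :
    ((X - C p1) * (X - C p2) ^ l + (C c * X + C d) : R[X]).Monic := by
  by_cases hR : Nontrivial R
  · have hmon : ((X - C p1) * (X - C p2) ^ l : R[X]).Monic :=
      (monic_X_sub_C _).mul ((monic_X_sub_C _).pow l)
    apply hmon.add_of_left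
    apply lt_of_le_of_lt degree_linear_le
    rw [degree_eq_natDegree hmon.ne_zero, (monic_X_sub_C _).natDegree_mul
      ((monic_X_sub_C _).pow l), (monic_X_sub_C _).natDegree_pow, natDegree_X_sub_C,
      natDegree_X_sub_C]
    exact_mod_cast (by omega : 1 < 1 + l * 1)
  · rw [not_nontrivial_iff_subsingleton] at hR
    exact monic_of_subsingleton _

/-- integrality of `e` with `432 e = β² + 125 β + 3125` -/
theorem e_int {R K : Type} [CommRing R] [Field K] [CharZero K] [Algebra R K] (l : ℕ) (hl : 1 ≤ l)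
    (E : ℤ[X]) (β : R) (hβ : aeval β (fp l E) = 0) (e : K)
    (he : 432 * e = (algebraMap R K β) ^ 2 + 125 * algebraMap R K β + 3125) :
    IsIntegral R e := by
  have h3 : aeval (algebraMap R K β) (fp l E) = 0 := by
    rw [aeval_algebraMap_apply, hβ, map_zero]
  have h4 := e_rel l E (algebraMap R K β) h3 e he
  refine ⟨(X - C ((a1 : R) * β + b1)) * (X - C ((a2 : R) * β + b2)) ^ l
      + (C (4 ^ (l + 1) * 7 * aeval β E) * X + C 0), monic_pert l hl _ _ _ _, ?_⟩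
  rw [eval₂_add, eval₂_add, eval₂_mul, eval₂_mul, eval₂_pow, eval₂_sub, eval₂_sub, eval₂_X,
    eval₂_C, eval₂_C, eval₂_C, eval₂_C]
  rw [← h4]
  have e1 : aeval (algebraMap R K β) E = algebraMap R K (aeval β E) := by
    rw [aeval_algebraMap_apply]
  rw [e1]
  simp only [map_add, map_mul, map_pow, map_intCast, map_ofNat, map_zero, add_zero]

/-- integrality of `t` with `4 t = e - β - 2` -/
theorem t_int {R K : Type} [CommRing R] [Field K] [CharZero K] [Algebra R K] (l : ℕ) (hl : 1 ≤ l)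
    (E β e : R)
    (h : (algebraMap R K e - ((a1 : K) * algebraMap R K β + b1))
      * (algebraMap R K e - ((a2 : K) * algebraMap R K β + b2)) ^ l
      + 4 ^ (l + 1) * 7 * algebraMap R K E * algebraMap R K e = 0) (t : K)
    (ht : 4 * t = algebraMap R K e - algebraMap R K β - 2) : IsIntegral R t := by
  obtain ⟨u1, hu1⟩ : ∃ u, a1 = 4 * u + 1 := ⟨a1 / 4, by have := a1_four; omega⟩
  obtain ⟨v1, hv1⟩ : ∃ v, b1 = 4 * v + 2 := ⟨b1 / 4, by have := b1_four; omega⟩
  obtain ⟨u2, hu2⟩ : ∃ u, a2 = 4 * u + 1 := ⟨a2 / 4, by have := a2_four; omega⟩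
  obtain ⟨v2, hv2⟩ : ∃ v, b2 = 4 * v + 2 := ⟨b2 / 4, by have := b2_four; omega⟩
  have h1 : algebraMap R K e - ((a1 : K) * algebraMap R K β + b1)
      = 4 * (t - ((u1 : K) * algebraMap R K β + v1)) := by
    rw [hu1, hv1]; push_cast; linear_combination -ht
  have h2 : algebraMap R K e - ((a2 : K) * algebraMap R K β + b2)
      = 4 * (t - ((u2 : K) * algebraMap R K β + v2)) := by
    rw [hu2, hv2]; push_cast; linear_combination -ht
  rw [h1, h2] at h
  have h4 : (t - ((u1 : K) * algebraMap R K β + v1)) * (t - ((u2 : K) * algebraMap R K β + v2)) ^ l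
      + 7 * algebraMap R K E * algebraMap R K e = 0 := by
    have h40 : (4 : K) ^ (l + 1) ≠ 0 := pow_ne_zero _ (by norm_num)
    apply mul_left_cancel₀ h40
    rw [mul_zero, ← h, mul_pow]
    ring
  refine ⟨(X - C ((u1 : R) * β + v1)) * (X - C ((u2 : R) * β + v2)) ^ l
      + (C 0 * X + C (7 * E * e)), monic_pert l hl _ _ _ _, ?_⟩
  rw [eval₂_add, eval₂_add, eval₂_mul, eval₂_mul, eval₂_pow, eval₂_sub, eval₂_sub, eval₂_X,
    eval₂_C, eval₂_C, eval₂_C, eval₂_C]
  rw [← h4]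
  simp only [map_add, map_mul, map_intCast, map_ofNat, map_zero, zero_mul, zero_add]

theorem fp_no_root (l : ℕ) (hl : 1 ≤ l) (E : ℤ[X]) (b : ℤ) : (fp l E).eval b ≠ 0 := by
  intro h
  have h1 : aeval b (fp l E) = 0 := by
    rw [coe_aeval_eq_eval]; exact h
  obtain ⟨e, he⟩ : ∃ e : ℚ, 432 * e = (algebraMap ℤ ℚ b) ^ 2 + 125 * algebraMap ℤ ℚ b + 3125 :=
    ⟨((algebraMap ℤ ℚ b) ^ 2 + 125 * algebraMap ℤ ℚ b + 3125) / 432, by field_simp⟩
  have h2 := e_int l hl E b h1 e he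
  obtain ⟨z, hz⟩ := IsIntegrallyClosed.isIntegral_iff.1 h2
  have h3 : aeval (algebraMap ℤ ℚ b) (fp l E) = 0 := by
    rw [aeval_algebraMap_apply, h1, map_zero]
  have h4 := e_rel l E (algebraMap ℤ ℚ b) h3 e he
  have hzr : b ^ 2 + 125 * b + 3125 = 432 * z := by
    rw [← hz] at he
    have : (432 : ℚ) * (z : ℚ) = (b : ℚ) ^ 2 + 125 * (b : ℚ) + 3125 := he
    exact_mod_cast this.symm
  have h5 : (z - (a1 * b + b1)) * (z - (a2 * b + b2)) ^ l
      + 4 ^ (l + 1) * 7 * E.eval b * z = 0 := by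
    have e1 : aeval (algebraMap ℤ ℚ b) E = ((E.eval b : ℤ) : ℚ) := by
      rw [aeval_algebraMap_apply, coe_aeval_eq_eval]; rfl
    rw [← hz, e1] at h4
    have h6 : (((z - (a1 * b + b1)) * (z - (a2 * b + b2)) ^ l
      + 4 ^ (l + 1) * 7 * E.eval b * z : ℤ) : ℚ) = 0 := by
      push_cast
      exact h4
    exact_mod_cast h6
  have h6 := e_unit (R := ℤ) l (E.eval b) b z hzr (by exact_mod_cast h5)
  rcases Int.isUnit_iff.1 h6 with h7 | h7
  · rw [h7] at hzr
    have h8 : b < 0 := by nlinarith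
    have h9 : -125 < b := by nlinarith
    have h10 : (2 * b + 125) ^ 2 = 4853 := by linarith
    have h11 : 2 * b + 125 < 70 := by nlinarith
    have h12 : -70 < 2 * b + 125 := by nlinarith
    have h13 : 69 < 2 * b + 125 ∨ 2 * b + 125 < -69 := by
      by_contra hc
      push Not at hc
      nlinarith
    omega
  · rw [h7] at hzr
    have h10 : (2 * b + 125) ^ 2 = 1397 := by linarith
    have h11 : 2 * b + 125 < 38 := by nlinarith
    have h12 : -38 < 2 * b + 125 := by nlinarith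
    have h13 : 37 < 2 * b + 125 ∨ 2 * b + 125 < -37 := by
      by_contra hc
      push Not at hc
      nlinarith
    omega

theorem fp_mod_l (l : ℕ) (F : ℤ[X]) :
    (fp l (C 37 * F)).map (Int.castRingHom (ZMod 37))
      = (X - C ((13 : ℤ) : ZMod 37)) * (X - C ((10 : ℤ) : ZMod 37)) ^ (2 * l + 1) := by
  have e37 : (C (37 : ℤ) : ℤ[X]).map (Int.castRingHom (ZMod 37)) = 0 := by
    rw [map_C]
    have : Int.castRingHom (ZMod 37) 37 = 0 := by decide
    rw [this, C_0]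
  rw [fp, Polynomial.map_add, Polynomial.map_mul, Polynomial.map_mul, Polynomial.map_mul,
    Polynomial.map_mul, Polynomial.map_pow, map_G, map_G, e37, zero_mul, mul_zero, add_zero,
    s1_l, m1_l, s2_l, m2_l]
  have h1 : (X ^ 2 - C (((13 : ℤ) : ZMod 37) + ((10 : ℤ) : ZMod 37)) * X
      + C (((13 : ℤ) : ZMod 37) * ((10 : ℤ) : ZMod 37)) : (ZMod 37)[X])
      = (X - C ((13 : ℤ) : ZMod 37)) * (X - C ((10 : ℤ) : ZMod 37)) := by
    rw [C_add, C_mul]; ring
  have h2 : (X ^ 2 - C (((10 : ℤ) : ZMod 37) + ((10 : ℤ) : ZMod 37)) * X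
      + C (((10 : ℤ) : ZMod 37) * ((10 : ℤ) : ZMod 37)) : (ZMod 37)[X])
      = (X - C ((10 : ℤ) : ZMod 37)) ^ 2 := by
    rw [C_add, C_mul]; ring
  rw [h1, h2, ← pow_mul]
  ring

theorem fp_mod_l2 (l : ℕ) (hl : 1 ≤ l) (F : ℤ[X]) (hF : ¬ ((37 : ℕ) : ℤ) ∣ F.eval 10) :
    ¬ (((37 : ℕ) : ℤ) ^ 2 ∣ (fp l (C 37 * F)).eval 10) := by
  intro h
  rw [fp_eval, eval_mul, eval_C] at h
  have d1 : ((37 : ℕ) : ℤ) ∣ (10 : ℤ) ^ 2 - s1 * 10 + m1 := by
    apply dvd_of_cast
    push_cast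
    rw [s1_l, m1_l]
    decide
  have d2 : ((37 : ℕ) : ℤ) ∣ (10 : ℤ) ^ 2 - s2 * 10 + m2 := by
    apply dvd_of_cast
    push_cast
    rw [s2_l, m2_l]
    decide
  have d3 : ((37 : ℕ) : ℤ) ^ 2 ∣ ((10 : ℤ) ^ 2 - s1 * 10 + m1)
      * ((10 : ℤ) ^ 2 - s2 * 10 + m2) ^ l := by
    rw [sq]
    exact mul_dvd_mul d1 (dvd_pow d2 (by omega))
  have d4 := (dvd_add_right d3).1 h
  have d5 : ((37 : ℕ) : ℤ) ∣ 1728 ^ l * (28 * 4475) * F.eval 10 := by
    have e : (4 : ℤ) * 1728 ^ l * 7 * (10 ^ 2 + 125 * 10 + 3125) * (37 * F.eval 10)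
        = ((37 : ℕ) : ℤ) * (1728 ^ l * (28 * 4475) * F.eval 10) := by
      push_cast; ring
    rw [e, sq] at d4
    exact Int.dvd_of_mul_dvd_mul_left (by norm_num) d4
  have hp : Prime ((37 : ℕ) : ℤ) := Nat.prime_iff_prime_int.1 (by norm_num)
  rcases hp.dvd_or_dvd d5 with d6 | d6
  · rcases hp.dvd_or_dvd d6 with d7 | d7
    · have := hp.dvd_of_dvd_pow d7
      norm_num at this
    · norm_num at d7
  · exact hF d6

theorem seven_zero : (7 : ZMod 7) = 0 := by decide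

/-- roots modulo 7 -/
theorem fp_mod_seven (l : ℕ) (E : ℤ[X]) (b : ℤ)
    (hb : ((b ^ 2 - s1 * b + m1 : ℤ) : ZMod 7) = 0)
    (hb' : ((2 * b - s1 : ℤ) : ZMod 7) ≠ 0)
    (hb2 : ((b ^ 2 - s2 * b + m2 : ℤ) : ZMod 7) ≠ 0) :
    ((7 : ℕ) : ℤ) ∣ (fp l E).eval b ∧ ¬ ((7 : ℕ) : ℤ) ∣ (fp l E).derivative.eval b := by
  have : Fact (Nat.Prime 7) := ⟨by norm_num⟩
  constructor
  · apply dvd_of_cast
    rw [fp_eval]
    have e : ((((b ^ 2 - s1 * b + m1) * (b ^ 2 - s2 * b + m2) ^ l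
        + 4 * 1728 ^ l * 7 * (b ^ 2 + 125 * b + 3125) * E.eval b : ℤ)) : ZMod 7)
        = ((b ^ 2 - s1 * b + m1 : ℤ) : ZMod 7) * (((b ^ 2 - s2 * b + m2 : ℤ) : ZMod 7)) ^ l
        + (7 : ZMod 7) * (4 * 1728 ^ l * ((b ^ 2 + 125 * b + 3125 : ℤ) : ZMod 7)
          * ((E.eval b : ℤ) : ZMod 7)) := by
      push_cast; ring
    have e7 : (7 : ZMod 7) = 0 := seven_zero
    rw [e, hb, e7, zero_mul, zero_mul, add_zero]
  · intro hd
    have h0 := cast_of_dvd hd
    have e : (fp l E).derivative = (G s1 m1).derivative * G s2 m2 ^ l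
        + G s1 m1 * (G s2 m2 ^ l).derivative
        + C 7 * (C (4 * 1728 ^ l) * (D * E).derivative) := by
      rw [fp, derivative_add, derivative_mul]
      have : (C (4 * 1728 ^ l * 7) * D * E : ℤ[X])
          = C (4 * 1728 ^ l * 7) * (D * E) := by ring
      rw [this, derivative_C_mul, C_mul]
      ring
    rw [e, eval_add, eval_add, eval_mul, eval_mul, eval_mul, eval_pow, G_eval, G_eval,
      eval_C] at h0
    have hder : (G s1 m1).derivative.eval b = 2 * b - s1 := by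
      simp [G]
    rw [hder] at h0
    push_cast at h0
    have e7 : (7 : ZMod 7) = 0 := seven_zero
    push_cast at hb hb' hb2
    rw [e7, zero_mul, add_zero, hb, zero_mul, add_zero] at h0
    rcases mul_eq_zero.1 h0 with h1 | h1
    · exact hb' h1
    · exact (pow_ne_zero l hb2) h1

end H81ET
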