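import Mathlib
import Pool.Agent.H76.EN.Signs
import Pool.Agent.H81.ET.Consts

/-!
# Sign changes
-/

namespace H81ET

open Polynomial Filter
open H76EN (Q0 Q0_aeval Q0_natDegree neg_prod prod_sign ev_pos)

/-- the test points -/
noncomputable def tp : ℕ → ℝ
  | 0 => -100
  | 1 => -50
  | (j + 2) => 50 + 100 * (j : ℝ)

theorem tp_lt (i : ℕ) : tp i < tp (i + 1) := by
  match i with
  | 0 => norm_num [tp]
  | 1 => norm_num [tp]
  | (j + 2) =>
    have e1 : tp (j + 2) = 50 + 100 * (j : ℝ) := rfl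
    have e2 : tp (j + 2 + 1) = 50 + 100 * ((j + 1 : ℕ) : ℝ) := rfl
    rw [e1, e2]
    push_cast
    linarith

theorem S_sign (l : ℕ) (hl : 1 ≤ l) (j : ℕ) (hj : j ≤ 2 * l + 1) :
    0 < (-1 : ℝ) ^ (2 * l + 1 - j)
      * (((tp j) ^ 2 + 125 * tp j + 3125) * aeval (tp j) (Q0 (2 * l - 1))) := by
  rw [Q0_aeval]
  match j with
  | 0 =>
    have h1 := neg_prod (-100) (by norm_num) (2 * l - 1)
    have e0 : tp 0 = -100 := rfl
    rw [e0]
    have e1 : (-1 : ℝ) ^ (2 * l + 1 - 0) = (-1 : ℝ) ^ (2 * l - 1) := by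
      have : 2 * l + 1 - 0 = (2 * l - 1) + 2 := by omega
      rw [this, pow_add]; norm_num
    rw [e1]
    have h2 := mul_pos (show (0 : ℝ) < (-100) ^ 2 + 125 * (-100) + 3125 by norm_num) h1
    linarith
  | 1 =>
    have h1 := neg_prod (-50) (by norm_num) (2 * l - 1)
    have e0 : tp 1 = -50 := rfl
    rw [e0]
    have e1 : (-1 : ℝ) ^ (2 * l + 1 - 1) = -(-1 : ℝ) ^ (2 * l - 1) := by
      have : 2 * l + 1 - 1 = (2 * l - 1) + 1 := by omega
      rw [this, pow_succ]; ring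
    rw [e1]
    have h2 := mul_pos (show (0 : ℝ) < -((-50) ^ 2 + 125 * (-50) + 3125) by norm_num) h1
    linarith
  | (j + 2) =>
    have h1 := prod_sign j (2 * l - 1) (by omega)
    have e0 : tp (j + 2) = 50 + 100 * (j : ℝ) := rfl
    rw [e0]
    have e1 : 2 * l + 1 - (j + 2) = 2 * l - 1 - j := by omega
    rw [e1]
    have h3 : (0 : ℝ) < (50 + 100 * (j : ℝ)) ^ 2 + 125 * (50 + 100 * (j : ℝ)) + 3125 := by
      positivity
    have h2 := mul_pos h3 h1
    linarith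

theorem natDegree_E (l : ℕ) (F0 : ℤ[X]) (hF0 : F0.natDegree ≤ 2 * l - 1) (c : ℤ) :
    (C 37 * (F0 - C c * Q0 (2 * l - 1)) : ℤ[X]).natDegree ≤ 2 * l - 1 := by
  calc (C 37 * (F0 - C c * Q0 (2 * l - 1)) : ℤ[X]).natDegree
      ≤ (F0 - C c * Q0 (2 * l - 1) : ℤ[X]).natDegree := natDegree_C_mul_le _ _
    _ ≤ max F0.natDegree (C c * Q0 (2 * l - 1) : ℤ[X]).natDegree := natDegree_sub_le _ _
    _ ≤ 2 * l - 1 := by
        apply max_le hF0
        calc (C c * Q0 (2 * l - 1) : ℤ[X]).natDegree ≤ (Q0 (2 * l - 1)).natDegree :=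
              natDegree_C_mul_le _ _
          _ = 2 * l - 1 := Q0_natDegree _

theorem exists_N (l : ℕ) (hl : 1 ≤ l) (F0 : ℤ[X]) (hF0 : F0.natDegree ≤ 2 * l - 1) (M : ℤ)
    (hM : 0 < M) :
    ∃ N : ℤ, ∃ t : ℕ → ℝ, (∀ i, i < 2 * l + 2 → t i < t (i + 1)) ∧
      ∀ j, j ≤ 2 * l + 2 → 0 < (-1 : ℝ) ^ (2 * l + 2 - j)
        * aeval (t j) (fp l (C 37 * (F0 - C (M * N) * Q0 (2 * l - 1)))) := by
  -- the values at the test points
  have hM' : (0 : ℝ) < M := by exact_mod_cast hM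
  have hval : ∀ (N : ℕ) (t : ℝ),
      aeval t (fp l (C 37 * (F0 - C (M * (N : ℤ)) * Q0 (2 * l - 1))))
      = ((t ^ 2 - (s1 : ℝ) * t + m1) * (t ^ 2 - (s2 : ℝ) * t + m2) ^ l
        + 4 * 1728 ^ l * 7 * (t ^ 2 + 125 * t + 3125) * (37 * aeval t F0))
        - (N : ℝ) * ((4 * 1728 ^ l * 7 * 37 * M) * ((t ^ 2 + 125 * t + 3125)
          * aeval t (Q0 (2 * l - 1)))) := by
    intro N t
    rw [fp_aeval, map_mul, map_sub, map_mul, aeval_C, aeval_C, eq_intCast, eq_intCast]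
    push_cast
    ring
  have hev : ∀ j ∈ Finset.range (2 * l + 2), ∀ᶠ N : ℕ in atTop,
      0 < (-1 : ℝ) ^ (2 * l + 2 - j)
        * aeval (tp j) (fp l (C 37 * (F0 - C (M * (N : ℤ)) * Q0 (2 * l - 1)))) := by
    intro j hj
    have hj' : j ≤ 2 * l + 1 := by have := Finset.mem_range.1 hj; omega
    have hS := S_sign l hl j hj'
    have hb : 0 < (4 * 1728 ^ l * 7 * 37 * (M : ℝ)) * ((-1 : ℝ) ^ (2 * l + 1 - j)
        * (((tp j) ^ 2 + 125 * tp j + 3125) * aeval (tp j) (Q0 (2 * l - 1)))) := by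
      apply mul_pos _ hS
      positivity
    apply (ev_pos ((-1 : ℝ) ^ (2 * l + 2 - j) * ((((tp j) ^ 2 - (s1 : ℝ) * (tp j) + m1)
      * ((tp j) ^ 2 - (s2 : ℝ) * (tp j) + m2) ^ l
        + 4 * 1728 ^ l * 7 * ((tp j) ^ 2 + 125 * tp j + 3125) * (37 * aeval (tp j) F0)))) _
        hb).mono
    intro N hN
    rw [hval]
    have e : (-1 : ℝ) ^ (2 * l + 2 - j) = -(-1 : ℝ) ^ (2 * l + 1 - j) := by
      have : 2 * l + 2 - j = (2 * l + 1 - j) + 1 := by omega
      rw [this, pow_succ]; ring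
    rw [e] at hN ⊢
    linarith
  obtain ⟨N, hN⟩ := ((Finset.range (2 * l + 2)).eventually_all.2 hev).exists
  -- the last point
  obtain ⟨f, hf⟩ : ∃ f, f = fp l (C 37 * (F0 - C (M * (N : ℤ)) * Q0 (2 * l - 1))) := ⟨_, rfl⟩
  have hdegE := natDegree_E l F0 hF0 (M * (N : ℤ))
  have hmon : f.Monic := by rw [hf]; exact fp_monic l hl _ hdegE
  have hdeg : f.natDegree = 2 * l + 2 := by rw [hf]; exact fp_natDegree l hl _ hdegE
  have hmonR : (f.map (algebraMap ℤ ℝ)).Monic := hmon.map _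
  have htend : Tendsto (fun x : ℝ => (f.map (algebraMap ℤ ℝ)).eval x) atTop atTop := by
    apply tendsto_atTop_of_leadingCoeff_nonneg
    · rw [degree_eq_natDegree hmonR.ne_zero, hmon.natDegree_map, hdeg]
      exact_mod_cast (by omega : 0 < 2 * l + 2)
    · rw [hmonR.leadingCoeff]; exact zero_le_one
  obtain ⟨x, hx1, hx2⟩ := ((htend.eventually_gt_atTop 0).and
    (eventually_gt_atTop (tp (2 * l + 1)))).exists
  refine ⟨N, fun i => if i ≤ 2 * l + 1 then tp i else x, ?_, ?_⟩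
  · intro i hi
    rcases Nat.lt_or_ge i (2 * l + 1) with h | h
    · dsimp only
      rw [if_pos (by omega), if_pos (by omega)]
      exact tp_lt i
    · have hi' : i = 2 * l + 1 := by omega
      dsimp only
      rw [if_pos (by omega), if_neg (by omega), hi']
      exact hx2
  · intro j hj
    rcases Nat.lt_or_ge j (2 * l + 2) with h | h
    · dsimp only
      rw [if_pos (by omega)]
      exact hN j (Finset.mem_range.2 h)
    · have hj' : j = 2 * l + 2 := by omega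
      dsimp only
      rw [if_neg (by omega), hj', Nat.sub_self, pow_zero, one_mul, ← hf]
      rw [eval_map_algebraMap] at hx1
      exact hx1

/-- all complex roots of such a polynomial are real -/
theorem exists_real (l : ℕ) (hl : 1 ≤ l) (F0 : ℤ[X]) (hF0 : F0.natDegree ≤ 2 * l - 1) (M : ℤ)
    (hM : 0 < M) :
    ∃ N : ℤ, ∃ t : ℕ → ℝ, (∀ i, i < 2 * l + 2 → t i < t (i + 1)) ∧
      ∀ j, j ≤ 2 * l + 2 → 0 < (-1 : ℝ) ^ (2 * l + 2 - j)
        * ((fp l (C 37 * (F0 - C (M * N) * Q0 (2 * l - 1)))).map (algebraMap ℤ ℝ)).eval (t j) := by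
  obtain ⟨N, t, h1, h2⟩ := exists_N l hl F0 hF0 M hM
  refine ⟨N, t, h1, ?_⟩
  intro j hj
  rw [eval_map_algebraMap]
  exact h2 j hj

end H81ET
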