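import Mathlib
import Pool.Agent.H81.ET.Curve

/-!
# The curves as pairs of polynomials, smoothness and point counts modulo 7
-/

namespace H81ET

open Polynomial H81ES

section
variable {R : Type} [CommRing R]

/-- `h` -/
noncomputable def hP (u t : R) : R[X] := C ((u + 1) * ee u t)

/-- `f` -/
noncomputable def fP (u t : R) : R[X] :=
  C (ee u t) * (C (4 * u) * X ^ 6 - C (6125 + 123 * u - 864 * ee u t) * X ^ 5
    + C (625 + 325 * u + 360 * ee u t + 180 * u * ee u t) * X ^ 4
    - C (106250 + 2150 * u + 43199 * ee u t + 1190 * u * ee u t - 8640 * ee u t ^ 2) * X ^ 3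
    + C (6250 + 1750 * u + 7347 * ee u t + 1944 * u * ee u t + 2160 * ee u t ^ 2
      + 540 * u * ee u t ^ 2) * X ^ 2
    - C (165625 + 3375 * u + 158097 * ee u t + 3738 * u * ee u t + 22716 * ee u t ^ 2
      + 1035 * u * ee u t ^ 2 - 7776 * ee u t ^ 3) * X + C (gg u t))

theorem ee_map {S : Type} [CommRing S] (φ : R →+* S) (u t : R) :
    φ (ee u t) = ee (φ u) (φ t) := by
  simp only [ee, map_add, map_mul, map_ofNat]

theorem gg_map {S : Type} [CommRing S] (φ : R →+* S) (u t : R) :
    φ (gg u t) = gg (φ u) (φ t) := by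
  simp only [gg, map_add, map_mul, map_pow, map_ofNat, ee_map]

theorem hP_map {S : Type} [CommRing S] (φ : R →+* S) (u t : R) :
    (hP u t).map φ = hP (φ u) (φ t) := by
  rw [hP, hP, Polynomial.map_C, map_mul, map_add, map_one, ee_map]

theorem fP_map {S : Type} [CommRing S] (φ : R →+* S) (u t : R) :
    (fP u t).map φ = fP (φ u) (φ t) := by
  rw [fP, fP]
  simp only [Polynomial.map_mul, Polynomial.map_add, Polynomial.map_sub, Polynomial.map_pow,
    Polynomial.map_C, Polynomial.map_X]
  simp only [map_mul φ, map_add φ, map_sub φ, map_pow φ, map_ofNat φ, ee_map, gg_map]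

theorem hP_eval (u t x : R) : (hP u t).eval x = (u + 1) * ee u t := by
  rw [hP, eval_C]

theorem fP_eval (u t x : R) : (fP u t).eval x = ee u t * fe u t x := by
  rw [fP]
  simp only [eval_add, eval_mul, eval_pow, eval_sub, eval_C, eval_X]
  rw [fe]

theorem hP_der (u t x : R) : (derivative (hP u t)).eval x = 0 := by
  rw [hP, derivative_C, eval_zero]

theorem fP_der (u t x : R) : (derivative (fP u t)).eval x = ee u t * fe' u t x := by
  rw [fP]
  simp only [derivative_add, derivative_mul, derivative_sub, derivative_X_pow, derivative_C,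
    derivative_X, eval_add, eval_mul, eval_pow, eval_sub, eval_C,
    eval_X, eval_one, eval_zero]
  rw [fe']
  push_cast
  ring

theorem fP_expand (u t : R) : fP u t = C (ee u t * (4 * u)) * X ^ 6
    + C (- (ee u t * (6125 + 123 * u - 864 * ee u t))) * X ^ 5
    + C (ee u t * (625 + 325 * u + 360 * ee u t + 180 * u * ee u t)) * X ^ 4
    + C (- (ee u t * (106250 + 2150 * u + 43199 * ee u t + 1190 * u * ee u t
      - 8640 * ee u t ^ 2))) * X ^ 3
    + C (ee u t * (6250 + 1750 * u + 7347 * ee u t + 1944 * u * ee u t + 2160 * ee u t ^ 2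
      + 540 * u * ee u t ^ 2)) * X ^ 2
    + C (- (ee u t * (165625 + 3375 * u + 158097 * ee u t + 3738 * u * ee u t
      + 22716 * ee u t ^ 2 + 1035 * u * ee u t ^ 2 - 7776 * ee u t ^ 3))) * X ^ 1
    + C (ee u t * gg u t) * X ^ 0 := by
  rw [fP]
  simp only [map_mul, map_neg]
  ring

theorem hP_coeff (u t : R) (i : ℕ) (hi : i ≠ 0) : (hP u t).coeff i = 0 := by
  rw [hP, coeff_C, if_neg hi]

theorem fP_coeff6 (u t : R) : (fP u t).coeff 6 = ee u t * (4 * u) := by
  rw [fP_expand]
  simp only [coeff_add, coeff_C_mul_X_pow]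
  norm_num

theorem fP_coeff5 (u t : R) : (fP u t).coeff 5 = - (ee u t * (6125 + 123 * u - 864 * ee u t)) := by
  rw [fP_expand]
  simp only [coeff_add, coeff_C_mul_X_pow]
  norm_num

theorem hP_deg (u t : R) : (hP u t).natDegree ≤ 3 := by
  rw [hP, natDegree_C]
  norm_num

theorem fP_deg (u t : R) : (fP u t).natDegree ≤ 6 := by
  rw [fP_expand]
  compute_degree

/-- no singular point in the affine chart -/
theorem affine {k : Type} [Field k] (u t x y : k)
    (hrel : u ^ 2 + 125 * u + 3125 = 432 * ee u t) (he : ee u t ≠ 0)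
    (e1 : y ^ 2 + (u + 1) * ee u t * y = ee u t * fe u t x) (e2 : 2 * y + (u + 1) * ee u t = 0)
    (e3 : 0 * y = ee u t * fe' u t x) : False := by
  have h1 : yy u (ee u t) x = 0 := by
    have h := rel4 u t hrel x
    have h0 : ee u t * yy u (ee u t) x = 0 := by
      linear_combination h - (2 * y + (u + 1) * ee u t) * e2 + 4 * e1
    rcases mul_eq_zero.1 h0 with h' | h'
    · exact absurd h' he
    · exact h'
  have h2 : yy' u (ee u t) x = 0 := by
    have h := rel4' u t x
    rw [zero_mul, eq_comm] at e3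
    rcases mul_eq_zero.1 e3 with h' | h'
    · exact absurd h' he
    · rw [h', mul_zero, eq_comm, neg_eq_zero] at h
      exact h
  have h3 := bezout u (ee u t) x hrel h1 h2
  exact he (pow_eq_zero_iff (by norm_num : (3 : ℕ) ≠ 0) |>.1 h3)

/-- no singular point at infinity -/
theorem infty {k : Type} [Field k] (u t y : k)
    (hrel : u ^ 2 + 125 * u + 3125 = 432 * ee u t) (he : ee u t ≠ 0)
    (e1 : y ^ 2 + 0 * y = ee u t * (4 * u)) (e2 : 2 * y + 0 = 0)
    (e3 : 0 * y = - (ee u t * (6125 + 123 * u - 864 * ee u t))) : False := by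
  obtain ⟨e, hE⟩ : ∃ e, e = ee u t := ⟨_, rfl⟩
  rw [← hE] at hrel he e1 e3
  have h5 : 6125 + 123 * u - 864 * e = 0 := by
    have h0 : e * (6125 + 123 * u - 864 * e) = 0 := by linear_combination e3
    rcases mul_eq_zero.1 h0 with h' | h'
    · exact absurd h' he
    · exact h'
  by_cases h2 : (2 : k) = 0
  · have hu : u = 1 := by
      linear_combination h5 - (3063 + 61 * u - 432 * e) * h2
    have : (1 : k) = 0 := by
      rw [hu] at hrel
      linear_combination hrel + (216 * e - 1625) * h2
    exact one_ne_zero this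
  · have hu : u = 0 := by
      have h0 : (2 : k) ^ 4 * (e * u) = 0 := by
        linear_combination 2 * y * e2 - 4 * e1
      rcases mul_eq_zero.1 h0 with h' | h'
      · exact absurd h' (pow_ne_zero 4 h2)
      · rcases mul_eq_zero.1 h' with h'' | h''
        · exact absurd h'' he
        · exact h''
    rw [hu] at hrel h5
    have h125 : (5 : k) ^ 3 = 0 := by
      linear_combination 2 * hrel - h5
    have h5' : (5 : k) = 0 := pow_eq_zero_iff (by norm_num : (3 : ℕ) ≠ 0) |>.1 h125
    have h0 : 2 * e = 0 := by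
      linear_combination (625 - 86 * e) * h5' - hrel
    rcases mul_eq_zero.1 h0 with h' | h'
    · exact h2 h'
    · exact he h'

theorem smooth (u t : R) (hrel : u ^ 2 + 125 * u + 3125 = 432 * ee u t)
    (hu : IsUnit (ee u t)) : SmoothGenusTwo (hP u t) (fP u t) := by
  refine ⟨hP_deg u t, fP_deg u t, ?_⟩
  intro k _ φ
  have hd : ee (φ u) (φ t) ≠ 0 := by
    rw [← ee_map]
    exact (hu.map φ).ne_zero
  have hr : φ u ^ 2 + 125 * φ u + 3125 = 432 * ee (φ u) (φ t) := by
    have := congrArg φ hrel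
    simp only [map_add, map_mul, map_pow, map_ofNat, ee_map] at this
    exact this
  constructor
  · intro x y h
    rw [hP_map, fP_map, hP_eval, fP_eval, hP_der, fP_der] at h
    exact affine (φ u) (φ t) x y hr hd h.1 h.2.1 h.2.2
  · intro y h
    rw [hP_coeff _ _ 3 (by norm_num), hP_coeff _ _ 2 (by norm_num), fP_coeff6, fP_coeff5] at h
    simp only [map_add, map_sub, map_neg, map_mul, map_ofNat, ee_map, map_zero] at h
    exact infty (φ u) (φ t) y hr hd h.1 h.2.1 h.2.2

theorem count (u t : R) (φ : R →+* ZMod 7) (v w : ZMod 7) (hv : φ u = v) (hw : φ t = w) (n : ℕ)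
    (hn : (Finset.univ.filter fun P : ZMod 7 × ZMod 7 =>
      P.2 ^ 2 + (v + 1) * ee v w * P.2 = ee v w * fe v w P.1).card
      + (Finset.univ.filter fun y : ZMod 7 =>
      y ^ 2 + 0 * y = ee v w * (4 * v)).card = n) : numPoints (hP u t) (fP u t) φ = n := by
  rw [numPoints, ← hn, ← hv, ← hw]
  simp only [hP_map, fP_map, hP_eval, fP_eval, hP_coeff _ _ 3 (by norm_num : (3 : ℕ) ≠ 0),
    fP_coeff6, map_mul, map_ofNat, ee_map, map_zero]

theorem four_mod7 (a b : ZMod 7) (h : 4 * a = b) : a = 2 * b := by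
  rw [← h]
  have : (2 : ZMod 7) * (4 * a) = 8 * a := by ring
  rw [this]
  have h8 : (8 : ZMod 7) = 1 := by decide
  rw [h8, one_mul]

/-- the value of `t` modulo 7 is determined by that of `u` -/
theorem t_mod (u t : R) (hrel : u ^ 2 + 125 * u + 3125 = 432 * ee u t) (φ : R →+* ZMod 7)
    (v w : ZMod 7) (hv : φ u = v)
    (hw : ∀ z : ZMod 7, v ^ 2 + 125 * v + 3125 = 432 * (v + 2 + 4 * z) → z = w) : φ t = w := by
  apply hw
  have := congrArg φ hrel
  simp only [map_add, map_mul, map_pow, map_ofNat, ee_map, hv] at this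
  rw [ee] at this
  exact this

theorem count2 (u t : R) (hrel : u ^ 2 + 125 * u + 3125 = 432 * ee u t) (φ : R →+* ZMod 7)
    (hv : φ u = 2) : numPoints (hP u t) (fP u t) φ = 12 := by
  apply count u t φ 2 1 hv (t_mod u t hrel φ 2 1 hv (by decide))
  decide +kernel

theorem count3 (u t : R) (hrel : u ^ 2 + 125 * u + 3125 = 432 * ee u t) (φ : R →+* ZMod 7)
    (hv : φ u = 3) : numPoints (hP u t) (fP u t) φ = 11 := by
  apply count u t φ 3 2 hv (t_mod u t hrel φ 3 2 hv (by decide))
  decide +kernel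

end

end H81ET
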