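import Mathlib
import Pool.Agent.H76.EN.Real
import Pool.Agent.H76.EN.Prim
import Pool.Agent.H76.EN.Ram
import Pool.Agent.H76.EN.Fld
import Pool.Agent.H81.ET.Coef
import Pool.Agent.H81.ET.Arith
import Pool.Agent.H81.ET.Poly

/-!
# The curves over the fields of degree `2 l + 2`
-/

namespace H81ET

open Polynomial NumberField H81ES
open H76EN (G Q0 hom_of_simple_root local_factor irred_rat exists_field totallyReal_of
  roots_of_alternating complex_root_real no_intermediate dvd_discr)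

theorem r2a : ((2 ^ 2 - s1 * 2 + m1 : ℤ) : ZMod 7) = 0 := by
  push_cast; rw [s1_sev, m1_sev]; decide
theorem r2b : ((2 * 2 - s1 : ℤ) : ZMod 7) ≠ 0 := by
  push_cast; rw [s1_sev]; decide
theorem r2c : ((2 ^ 2 - s2 * 2 + m2 : ℤ) : ZMod 7) ≠ 0 := by
  push_cast; rw [s2_sev, m2_sev]; decide
theorem r3a : ((3 ^ 2 - s1 * 3 + m1 : ℤ) : ZMod 7) = 0 := by
  push_cast; rw [s1_sev, m1_sev]; decide
theorem r3b : ((2 * 3 - s1 : ℤ) : ZMod 7) ≠ 0 := by
  push_cast; rw [s1_sev]; decide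
theorem r3c : ((3 ^ 2 - s2 * 3 + m2 : ℤ) : ZMod 7) ≠ 0 := by
  push_cast; rw [s2_sev, m2_sev]; decide
theorem ne_l : ((13 : ℤ) : ZMod 37) ≠ ((10 : ℤ) : ZMod 37) := by decide

/-- the final property of the field -/
def Good (K : Type) [Field K] [NumberField K] : Prop :=
  ∃ u t : 𝓞 K, u ^ 2 + 125 * u + 3125 = 432 * (u + 2 + 4 * t) ∧ IsUnit (u + 2 + 4 * t) ∧
    SmoothGenusTwo (hP u t) (fP u t) ∧
    ∃ φ ψ : 𝓞 K →+* ZMod 7, numPoints (hP u t) (fP u t) φ = 12 ∧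
      numPoints (hP u t) (fP u t) ψ = 11

theorem good_of {K : Type} [Field K] [NumberField K] (u t : 𝓞 K)
    (hrel : u ^ 2 + 125 * u + 3125 = 432 * (u + 2 + 4 * t)) (hu : IsUnit (u + 2 + 4 * t))
    (φ ψ : 𝓞 K →+* ZMod 7) (hφ : φ u = 2) (hψ : ψ u = 3) : Good K :=
  ⟨u, t, hrel, hu, smooth u t hrel hu, φ, ψ, count2 u t hrel φ hφ, count3 u t hrel ψ hψ⟩

theorem curve_of_root (l : ℕ) (hl : 1 ≤ l) (E : ℤ[X]) (K : Type) [Field K] [NumberField K]
    (pb : PowerBasis ℚ K)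
    (hf : minpoly ℚ pb.gen = (fp l E).map (Int.castRingHom ℚ))
    (β : 𝓞 K) (hβ : (β : K) = pb.gen) (hrel : aeval β (fp l E) = 0) : Good K := by
  have : Fact (Nat.Prime 7) := ⟨by norm_num⟩
  -- e
  obtain ⟨x, hx⟩ : ∃ x : K, 432 * x = (algebraMap (𝓞 K) K β) ^ 2
      + 125 * algebraMap (𝓞 K) K β + 3125 :=
    ⟨((algebraMap (𝓞 K) K β) ^ 2 + 125 * algebraMap (𝓞 K) K β + 3125) / 432, by field_simp⟩
  have hxint : IsIntegral (𝓞 K) x := e_int l hl E β hrel x hx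
  have hxint' : IsIntegral ℤ x := isIntegral_trans x hxint
  obtain ⟨e, he⟩ : ∃ e : 𝓞 K, (e : K) = x := ⟨⟨x, hxint'⟩, rfl⟩
  have he432 : β ^ 2 + 125 * β + 3125 = 432 * e := by
    apply RingOfIntegers.ext
    have h : (β : K) ^ 2 + 125 * (β : K) + 3125 = (432 : K) * (e : K) := by
      rw [he]; exact hx.symm
    push_cast
    exact h
  have hbK : aeval (algebraMap (𝓞 K) K β) (fp l E) = 0 := by
    rw [aeval_algebraMap_apply, hrel, map_zero]
  have hr := e_rel l E (algebraMap (𝓞 K) K β) hbK x hx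
  rw [aeval_algebraMap_apply, ← he] at hr
  have hrO : (e - ((a1 : 𝓞 K) * β + b1)) * (e - ((a2 : 𝓞 K) * β + b2)) ^ l
      + 4 ^ (l + 1) * 7 * (aeval β E) * e = 0 := by
    apply RingOfIntegers.ext
    simp only [map_add, map_mul, map_sub, map_pow, map_intCast, map_ofNat, map_zero]
    exact hr
  have hunit := e_unit l (aeval β E) β e he432 hrO
  -- t
  obtain ⟨y, hy⟩ : ∃ y : K, 4 * y = algebraMap (𝓞 K) K e - algebraMap (𝓞 K) K β - 2 :=
    ⟨(algebraMap (𝓞 K) K e - algebraMap (𝓞 K) K β - 2) / 4, by field_simp⟩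
  have hyint : IsIntegral (𝓞 K) y := t_int l hl (aeval β E) β e hr y hy
  have hyint' : IsIntegral ℤ y := isIntegral_trans y hyint
  obtain ⟨t, ht⟩ : ∃ t : 𝓞 K, (t : K) = y := ⟨⟨y, hyint'⟩, rfl⟩
  have hte : e = β + 2 + 4 * t := by
    apply RingOfIntegers.ext
    have h : (e : K) = (β : K) + 2 + 4 * (t : K) := by
      rw [ht]; linear_combination -hy
    push_cast
    exact h
  rw [hte] at he432 hunit
  obtain ⟨a7, b7⟩ := fp_mod_seven l E 2 r2a r2b r2c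
  obtain ⟨a9, b9⟩ := fp_mod_seven l E 3 r3a r3b r3c
  obtain ⟨φ, hφ⟩ := hom_of_simple_root 7 K pb (fp l E) hf β hβ 2 a7 b7
  obtain ⟨ψ, hψ⟩ := hom_of_simple_root 7 K pb (fp l E) hf β hβ 3 a9 b9
  exact good_of β t he432 hunit φ ψ (by rw [hφ]; rfl) (by rw [hψ]; rfl)

theorem main (l : ℕ) (hl : 1 ≤ l) (B : ℕ) :
    ∃ (K : Type) (_ : Field K) (_ : NumberField K),
      Module.finrank ℚ K = 2 * l + 2 ∧ IsTotallyReal K ∧
      (∀ L : IntermediateField ℚ K, L = ⊥ ∨ L = ⊤) ∧ (B : ℤ) < |discr K| ∧ Good K := by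
  have : Fact (Nat.Prime 37) := ⟨by norm_num⟩
  obtain ⟨q, hqB, hq⟩ := Nat.exists_infinite_primes (B + 38)
  have hq37 : 37 < q := by omega
  obtain ⟨t0, t1, ht⟩ := exists_t l q hq hq37
  obtain ⟨N, t, htmono, hts⟩ := exists_real l hl (Flin t0 t1) (Flin_natDegree l hl t0 t1)
    (37 * (q : ℤ) ^ 2) (by have := hq.pos; positivity)
  obtain ⟨hq0, hq02, hq1⟩ := ht N
  obtain ⟨E, hE⟩ : ∃ E, E = (C 37 * (Flin t0 t1 - C (37 * (q : ℤ) ^ 2 * N)
    * Q0 (2 * l - 1)) : ℤ[X]) := ⟨_, rfl⟩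
  have hff : ff l q t0 t1 N = fp l E := by rw [ff, hE]
  rw [hff] at hq0 hq02 hq1
  have hdegE : E.natDegree ≤ 2 * l - 1 := by
    rw [hE]; exact natDegree_E l _ (Flin_natDegree l hl t0 t1) _
  rw [← hE] at hts
  have hmon := fp_monic l hl E hdegE
  have hdeg := fp_natDegree l hl E hdegE
  -- the local factorisation at 37
  have hmod : (fp l E).map (Int.castRingHom (ZMod 37))
      = (X - C ((13 : ℤ) : ZMod 37)) * (X - C ((10 : ℤ) : ZMod 37)) ^ (2 * l + 1) := by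
    rw [hE]; exact fp_mod_l l _
  have hne : ((13 : ℤ) : ZMod 37) ≠ ((10 : ℤ) : ZMod 37) := ne_l
  have hF : ¬ ((37 : ℕ) : ℤ) ∣ (Flin t0 t1 - C (37 * (q : ℤ) ^ 2 * N)
      * Q0 (2 * l - 1)).eval 10 := by
    intro hd
    have e : (Flin t0 t1 - C (37 * (q : ℤ) ^ 2 * N) * Q0 (2 * l - 1)).eval 10
        = 1 + ((37 : ℕ) : ℤ) * (t0 + t1 * 10 - (q : ℤ) ^ 2 * N * (Q0 (2 * l - 1)).eval 10) := by
      rw [eval_sub, eval_mul, eval_C, Flin, eval_add, eval_C, eval_mul, eval_C, eval_X]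
      push_cast; ring
    rw [e] at hd
    have := (dvd_add_left (Dvd.intro _ rfl)).1 hd
    norm_num at this
  have h2 : ¬ (((37 : ℕ) : ℤ) ^ 2 ∣ (fp l E).eval 10) := by
    rw [hE]; exact fp_mod_l2 l hl _ hF
  obtain ⟨z, h, hz, hhmon, hhdeg, hhirr, hh⟩ := local_factor 37 (fp l E) (2 * l + 1) (by omega)
    hmon hdeg 13 10 hmod hne h2
  have hirr := irred_rat 37 (fp l E) (2 * l + 1) (by omega) hmon hdeg z h hhmon hhdeg hhirr hh
    (fp_no_root l hl E)
  obtain ⟨K, hK1, hK2, pb, hf⟩ := exists_field (fp l E) hmon hirr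
  refine ⟨K, hK1, hK2, ?_, ?_, ?_, ?_, ?_⟩
  · rw [pb.finrank, ← pb.natDegree_minpoly, hf, hmon.natDegree_map, hdeg]
  · -- totally real
    apply totallyReal_of K pb (fp l E) hf
    intro w hw
    obtain ⟨r, hrinj, hr⟩ := roots_of_alternating (2 * l + 2) ((fp l E).map (algebraMap ℤ ℝ)) t
      htmono hts
    have hmonR : ((fp l E).map (algebraMap ℤ ℝ)).Monic := hmon.map _
    have hw' : aeval w ((fp l E).map (algebraMap ℤ ℝ)) = 0 := by
      rw [aeval_map_algebraMap]; exact hw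
    obtain ⟨i, hi⟩ := complex_root_real (2 * l + 2) _ (by rw [hmon.natDegree_map, hdeg])
      hmonR.ne_zero r hrinj hr w hw'
    exact ⟨r i, hi⟩
  · intro L
    exact no_intermediate 37 (fp l E) (2 * l + 1) (by omega) hmon hdeg z h hz hhmon hhdeg hhirr
      hh K pb hf L
  all_goals
    have hroot : aeval pb.gen (fp l E) = 0 := by
      have h1 : aeval pb.gen ((fp l E).map (Int.castRingHom ℚ)) = 0 := by
        rw [← hf]; exact minpoly.aeval _ _
      have := aeval_map_algebraMap (R := ℤ) ℚ pb.gen (fp l E)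
      rw [← this]
      exact h1
    have hint : IsIntegral ℤ pb.gen := ⟨fp l E, hmon, hroot⟩
    obtain ⟨β, hβ⟩ : ∃ β : 𝓞 K, (β : K) = pb.gen := ⟨⟨pb.gen, hint⟩, rfl⟩
  · have hd := dvd_discr K pb (fp l E) hf β hβ q hq hq0 hq02 hq1
    have h0 : discr K ≠ 0 := discr_ne_zero K
    have h1 : (q : ℤ) ≤ |discr K| := by
      apply Int.le_of_dvd (abs_pos.2 h0)
      exact (dvd_abs _ _).2 hd
    have h3 : ((B : ℤ) + 38) ≤ q := by exact_mod_cast hqB
    linarith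
  · apply curve_of_root l hl E K pb hf β hβ
    apply RingOfIntegers.ext
    have h3 := aeval_algebraMap_apply K β (fp l E)
    have h4 : aeval (algebraMap (𝓞 K) K β) (fp l E) = 0 := by
      have : algebraMap (𝓞 K) K β = pb.gen := hβ
      rw [this]; exact hroot
    exact (h3.symm.trans h4).trans (map_zero (algebraMap (𝓞 K) K)).symm

end H81ET
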