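import Mathlib
import Pool.Agent.H76.ES.Main
import Pool.Agent.H76.EA.Quad
import Pool.Agent.H81.ES.Hom
import Pool.Agent.H81.ET.Inf
import Pool.Agent.H81.ET.Main

/-!
# Real quadratic fields, and all even degrees
-/

namespace H81ET

open Polynomial NumberField H81ES
open H76EN (exists_field totallyReal_of dvd_discr)
open H76EA (irr_quad)
open H76ES (isInt)

theorem quad_main (i d w : ℕ) (hd : Squarefree d) (h1 : 1 < d) (hD : disc i = d * (w : ℤ) ^ 2)
    (K : Type) [Field K] [NumberField K] (hK : Module.finrank ℚ K = 2)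
    (r : K) (hr : r ^ 2 = (d : K)) : Good K := by
  obtain ⟨a, ha⟩ : ∃ a, a = (pl (23 + 24 * i)).1 := ⟨_, rfl⟩
  obtain ⟨b, hb⟩ : ∃ b, b = (pl (23 + 24 * i)).2 := ⟨_, rfl⟩
  obtain ⟨⟨x, hx⟩, ⟨y, hy⟩⟩ := pl_mod i
  have hpos := disc_pos i
  have hnorm := pl_norm (23 + 24 * i)
  rw [← ha, ← hb] at hnorm
  rw [← ha] at hx
  rw [← hb] at hy
  obtain ⟨s, hs⟩ : ∃ s : ℤ, s = 432 * a - 125 := ⟨_, rfl⟩
  obtain ⟨m, hm⟩ : ∃ m : ℤ, m = 3125 - 432 * b := ⟨_, rfl⟩
  have hD' : s ^ 2 - 4 * m = d * (w : ℤ) ^ 2 := by rw [← hD, disc, hs, hm, ha, hb]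
  have hw : (w : ℤ) ≠ 0 := by
    intro h0
    rw [hD, h0] at hpos
    simp at hpos
  have hDK : (s : K) ^ 2 - 4 * m = d * (w : K) ^ 2 := by
    exact_mod_cast congrArg (Int.cast : ℤ → K) hD'
  obtain ⟨β, hβ⟩ : ∃ β : K, 2 * β = s + w * r := ⟨(s + w * r) / 2, by field_simp⟩
  have hβ2 : β ^ 2 = s * β - ((m : ℤ) : K) := by
    have h4 : (4 : K) ≠ 0 := by norm_num
    apply mul_left_cancel₀ h4
    have e1 : (4 : K) * β ^ 2 = (2 * β) ^ 2 := by ring
    have e2 : (4 : K) * (s * β - (m : K)) = 2 * s * (2 * β) - 4 * (m : K) := by ring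
    rw [e1, e2, hβ]
    linear_combination (w : K) ^ 2 * hr - hDK
  have hint : IsIntegral ℤ β := isInt K s m β hβ2
  obtain ⟨u, hu⟩ : ∃ u : 𝓞 K, (u : K) = β := ⟨⟨β, hint⟩, rfl⟩
  have hu2 : u ^ 2 = (s : 𝓞 K) * u - (m : 𝓞 K) := by
    have hBB : (u : K) ^ 2 = s * (u : K) - (m : K) := by
      rw [hu]; exact hβ2
    apply RingOfIntegers.ext
    push_cast at hBB ⊢
    exact hBB
  -- t
  obtain ⟨t, ht⟩ : ∃ t : 𝓞 K, t = ((1 + 7 * x : ℤ) : 𝓞 K) * u + ((6 + 7 * y : ℤ) : 𝓞 K) := ⟨_, rfl⟩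
  have hte : u + 2 + 4 * t = (a : 𝓞 K) * u + b := by
    rw [ht, hx, hy]
    push_cast
    ring
  have hrel : u ^ 2 + 125 * u + 3125 = 432 * (u + 2 + 4 * t) := by
    rw [hte, hu2, hs, hm]
    push_cast
    ring
  have hunit : IsUnit (u + 2 + 4 * t) := by
    have hN' : (b : 𝓞 K) ^ 2 - 125 * a * b + 3125 * (a : 𝓞 K) ^ 2 = -1 := by
      exact_mod_cast congrArg (Int.cast : ℤ → 𝓞 K) hnorm
    rw [hte] at hrel ⊢
    -- (a u + b) (b - 125 a - a u) = - 1 - 432 a² (a u + b)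
    have e : ((a : 𝓞 K) * u + b) * (-((b : 𝓞 K) - 125 * a - a * u) - 432 * (a : 𝓞 K) ^ 2)
        = 1 := by
      linear_combination (-1 : 𝓞 K) * hN' + (a : 𝓞 K) ^ 2 * hrel
    exact IsUnit.of_mul_eq_one _ e
  have ha7 : (a : ZMod 7) = 5 := by
    rw [hx]
    push_cast
    have e : (28 : ZMod 7) = 0 := by decide
    rw [e, zero_mul, add_zero]
  have hb7 : (b : ZMod 7) = 5 := by
    rw [hy]
    push_cast
    have e : (28 : ZMod 7) = 0 := by decide
    rw [e, zero_mul, add_zero]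
    decide
  have hs7 : (s : ZMod 7) = 5 := by
    rw [hs]
    push_cast
    rw [ha7]
    decide
  have hm7 : (m : ZMod 7) = 6 := by
    rw [hm]
    push_cast
    rw [hb7]
    decide
  have hD7 : ((s ^ 2 - 4 * m : ℤ) : ZMod 7) ≠ 0 := by
    push_cast
    rw [hs7, hm7]
    decide
  have hβ' : 2 * (u : K) = s + ((w : ℤ) : K) * r := by
    rw [hu, hβ]; push_cast; ring
  obtain ⟨φ, hφ⟩ := exists_hom7 K hK hd h1 r hr s m w hD' hw u hβ' 2
    (by rw [hs7, hm7]; decide) hD7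
  obtain ⟨ψ, hψ⟩ := exists_hom7 K hK hd h1 r hr s m w hD' hw u hβ' 3
    (by rw [hs7, hm7]; decide) hD7
  exact good_of u t hrel hunit φ ψ hφ hψ

theorem quad (B : ℕ) :
    ∃ (K : Type) (_ : Field K) (_ : NumberField K),
      Module.finrank ℚ K = 2 ∧ IsTotallyReal K ∧
      (∀ L : IntermediateField ℚ K, L = ⊥ ∨ L = ⊤) ∧ (B : ℤ) < |discr K| ∧ Good K := by
  obtain ⟨i, a, b, hB, ha, hD⟩ := unbounded (max B 1)
  have h1 : 1 < a := lt_of_le_of_lt (le_max_right B 1) hB
  have hBa : B < a := lt_of_le_of_lt (le_max_left B 1) hB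
  have hmon : (X ^ 2 - C (a : ℤ) : ℤ[X]).Monic := monic_X_pow_sub_C _ (by norm_num)
  have hdeg : (X ^ 2 - C (a : ℤ) : ℤ[X]).natDegree = 2 := natDegree_X_pow_sub_C
  obtain ⟨K, hK1, hK2, pb, hf⟩ := exists_field _ hmon (irr_quad a ha h1)
  have hfin : Module.finrank ℚ K = 2 := by
    rw [pb.finrank, ← pb.natDegree_minpoly, hf, hmon.natDegree_map, hdeg]
  have hroot : aeval pb.gen (X ^ 2 - C (a : ℤ) : ℤ[X]) = 0 := by
    have h1 : aeval pb.gen ((X ^ 2 - C (a : ℤ) : ℤ[X]).map (Int.castRingHom ℚ)) = 0 := by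
      rw [← hf]; exact minpoly.aeval _ _
    have := aeval_map_algebraMap (R := ℤ) ℚ pb.gen (X ^ 2 - C (a : ℤ) : ℤ[X])
    rw [← this]
    exact h1
  have hr : pb.gen ^ 2 = (a : K) := by
    rw [map_sub, map_pow, aeval_X, aeval_C] at hroot
    have : algebraMap ℤ K (a : ℤ) = (a : K) := by simp
    rw [this] at hroot
    linear_combination hroot
  have hint : IsIntegral ℤ pb.gen := ⟨_, hmon, hroot⟩
  obtain ⟨β, hβ⟩ : ∃ β : 𝓞 K, (β : K) = pb.gen := ⟨⟨pb.gen, hint⟩, rfl⟩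
  refine ⟨K, hK1, hK2, hfin, ?_, ?_, ?_, quad_main i a b ha h1 hD K hfin pb.gen hr⟩
  · apply totallyReal_of K pb _ hf
    intro w hw
    rw [map_sub, map_pow, aeval_X, aeval_C] at hw
    have e1 : algebraMap ℤ ℂ (a : ℤ) = ((Real.sqrt a : ℝ) : ℂ) ^ 2 := by
      have : algebraMap ℤ ℂ (a : ℤ) = ((a : ℝ) : ℂ) := by simp
      rw [this, ← Complex.ofReal_pow, Real.sq_sqrt (Nat.cast_nonneg a)]
    rw [e1] at hw
    have h3 : (w - ((Real.sqrt a : ℝ) : ℂ)) * (w + ((Real.sqrt a : ℝ) : ℂ)) = 0 := by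
      linear_combination hw
    rcases mul_eq_zero.1 h3 with h | h
    · exact ⟨Real.sqrt a, by linear_combination h⟩
    · exact ⟨-Real.sqrt a, by push_cast; linear_combination h⟩
  · intro L
    have h3 := Module.finrank_mul_finrank ℚ L K
    rw [hfin] at h3
    have h4 : Module.finrank ℚ L ∣ 2 := ⟨_, h3.symm⟩
    rcases (Nat.dvd_prime Nat.prime_two).1 h4 with h | h
    · left
      exact IntermediateField.finrank_eq_one_iff.1 h
    · right
      rw [h] at h3
      exact IntermediateField.finrank_eq_one_iff_eq_top.1 (by omega)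
  · have hdiv : (a : ℤ) ∣ discr K := by
      have hnat : a ∣ (discr K).natAbs := by
        rw [← Nat.prod_primeFactors_of_squarefree ha]
        apply Finset.prod_primes_dvd
        · intro q hq
          exact (Nat.prime_of_mem_primeFactors hq).prime
        · intro q hq
          have hqp := Nat.prime_of_mem_primeFactors hq
          have hqa := Nat.dvd_of_mem_primeFactors hq
          apply Int.natCast_dvd.1
          apply dvd_discr K pb _ hf β hβ q hqp
          · simp only [coeff_sub, coeff_X_pow, coeff_C_zero]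
            norm_num
            exact_mod_cast hqa
          · simp only [coeff_sub, coeff_X_pow, coeff_C_zero]
            norm_num
            intro h
            have h5 : q * q ∣ a := by
              have : (q : ℤ) ^ 2 = ((q * q : ℕ) : ℤ) := by push_cast; ring
              rw [this] at h
              exact_mod_cast h
            have h6 := ha q h5
            rw [Nat.isUnit_iff] at h6
            exact hqp.one_lt.ne' h6
          · simp [coeff_X_pow]
      exact Int.natCast_dvd.2 hnat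
    have h0 : discr K ≠ 0 := discr_ne_zero K
    have h2 : (a : ℤ) ≤ |discr K| := by
      apply Int.le_of_dvd (abs_pos.2 h0)
      exact (dvd_abs _ _).2 hdiv
    have h3 : (B : ℤ) < a := by exact_mod_cast hBa
    linarith

theorem all_even (n : ℕ) (hn : Even n) (hn0 : 0 < n) (B : ℕ) :
    ∃ (K : Type) (_ : Field K) (_ : NumberField K),
      Module.finrank ℚ K = n ∧ IsTotallyReal K ∧
      (∀ L : IntermediateField ℚ K, L = ⊥ ∨ L = ⊤) ∧ (B : ℤ) < |discr K| ∧ Good K := by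
  obtain ⟨m, hm⟩ := hn
  rcases Nat.lt_or_ge m 2 with h | h
  · have : n = 2 := by omega
    rw [this]
    exact quad B
  · obtain ⟨K, h1, h2, h3, h4, h5, h6, h7⟩ := main (m - 1) (by omega) B
    exact ⟨K, h1, h2, by rw [h3]; omega, h4, h5, h6, h7⟩

end H81ET
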